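import Pool.Agent.W408.LD.R5

set_option autoImplicit false

/-!
# A finite lattice and a diagram of simplicial monoids that lifts by von Neumann regular rings but
not by C*-algebras of real rank zero

Let `P` be the finite lattice of all subrings `S` of `M_3(F_2)` such that all elements of `S` are
idempotent, together with `M_3(F_2)` itself.  The members of `P` are regular rings; the diagram `M`
of simplicial monoids is the diagram of the monoids `V(S)`, `S ∈ P`, with the maps induced by the
inclusions.

A lifting of `M` by C*-algebras `A(S)` of real rank zero gives, after compression by a projection
of the algebra of the bottom of `P`, for every idempotent matrix `x` of rank one a nonzero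
projection `q(x)` of `A(M_3(F_2))`, such that `q(x) + q(y) + q(z)` is a fixed element and
`q(x) q(y) = 0` whenever `x`, `y`, `z` are orthogonal idempotents of rank one with sum one.  (The
unit compressed algebra at the subring generated by `x`, `y`, `z` is `ℂ³`, and so it has only one
projection of each class.)  The 28 idempotents of rank one and the 28 decompositions of the unit
form a configuration whose incidence matrix is invertible over the field of rational numbers, but
not over `F_2`; 18 of these relations yield `2 q(x) = 2 q(y)` for two orthogonal idempotents `x`
and `y`, so `q(x) = q(x) q(y) = 0`, a contradiction.
-/

open CategoryTheory Pool.Agent.W408.LD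

universe u

/-- There are a finite lattice `P` and a `P`-indexed commutative diagram `M` of simplicial monoids
which lifts with respect to `V` by a diagram of von Neumann regular rings (even by unital ones, with
maps that preserve the units) but not by a diagram of C*-algebras of real rank zero. -/
theorem Pool.Agent.Results.MP_a87542_al.RegNotRR0Lattice.result :
    ∃ (P : Type) (_ : Lattice P) (_ : Finite P) (M : P ⥤ AddCommMonCat.{0}), Simplicial M ∧
      (∃ L : Lifting VReg.{0} M, Unital L.F) ∧ IsEmpty (Lifting VRR0.{u} M) :=
  ⟨P, inferInstance, inferInstance, M, M_simplicial, ⟨liftF, F_unital⟩, ⟨main_false⟩⟩
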